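import Pool.Agent.ARC.Stmts
import Pool.Agent.Helper3_ZES.AZE

/-!
# Squad ARC, row FRZ: the finite range zero estimate for theta functions (helper16)
-/

set_option autoImplicit false

namespace Pool.Agent.ARC.H16

open scoped BigOperators InnerProductSpace
open Pool.Agent.THS Pool.Agent.ZES

theorem frz (afr : AfrStmt) (gau : ZES.GauStmt) (trf : ZES.TrfStmt) (esd : ZES.EsdStmt) :
    FrzStmt := by
  intro g e he h2
  obtain ⟨J, hJ⟩ := afr ((2 * e) ^ g)
  refine ⟨J, ?_⟩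
  intro τ hτ z F hF hFz k
  obtain ⟨Λ, L, χ, β, hLAT, hβ, hL, hEq⟩ := gau g τ hτ
  obtain ⟨hT1, hT2, hT3⟩ := trf g τ hτ Λ L χ β hβ hEq
  have hfD := hT3 (2 * e) (by omega)
  have hES := esd (EuclideanSpace ℂ (Fin g)) L χ hLAT (2 * e) (hT1 e he h2) hfD.1
    (hT2 (2 * e) (by simp) (by omega))
  obtain ⟨v, hv⟩ := ZES.H3.exists_gen (TN L χ (2 * e)) ((2 * e) ^ g) hfD.1 hfD.2
  have hF' := (hEq (2 * e) F).1 hF
  have hES' : ES (Submodule.span ℂ (Set.range v)) := by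
    rw [hv]
    exact hES
  have hmem : (fun v => F (Λ.symm v) * Complex.exp (((2 * e : ℕ) : ℂ) * β (Λ.symm v))) ∈
      Submodule.span ℂ (Set.range v) := by
    rw [hv]
    exact hF'
  have hval : ∀ j : ℕ, Λ.symm (j • Λ z) = j • z := fun j => by
    rw [map_nsmul, ContinuousLinearEquiv.symm_apply_apply]
  have h1 := hJ (EuclideanSpace ℂ (Fin g)) v hES' (Λ z) _ hmem (fun j hj => by
    show F (Λ.symm (j • Λ z)) * _ = 0
    rw [hval j, hFz j hj, zero_mul]) k
  have h3 : F (Λ.symm (k • Λ z)) * Complex.exp (((2 * e : ℕ) : ℂ) * β (Λ.symm (k • Λ z))) = 0 := h1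
  rw [hval k] at h3
  exact (mul_eq_zero.1 h3).resolve_right (Complex.exp_ne_zero _)

end Pool.Agent.ARC.H16
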